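import Mathlib
import Pool.Agent.U645.VB.Stm

/-!
# Project VB, package B (helper402): three explicit bipartite graphs
-/

set_option autoImplicit false

open Finset

namespace Pool.Agent.U402.VB.B

theorem card_lt (n l0 : ℕ) (h : l0 ≤ n) : (univ.filter (fun u : Fin n => u.val < l0)).card = l0 := by
  have h1 : (univ.filter (fun u : Fin n => u.val < l0)).map Fin.valEmbedding = range l0 := by
    ext i
    simp only [mem_map, mem_filter, mem_univ, true_and, Fin.valEmbedding_apply, mem_range]
    constructor
    · rintro ⟨a, ha, rfl⟩; exact ha
    · intro hi; exact ⟨⟨i, by omega⟩, hi, rfl⟩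
  rw [← card_map Fin.valEmbedding, h1, card_range]

theorem row (n l0 : ℕ) (h : l0 ≤ n) (b : Fin n) :
    (univ.filter (fun t : Fin n => (t - b).val < l0)).card = l0 := by
  have : NeZero n := ⟨by have := b.isLt; omega⟩
  conv_rhs => rw [← card_lt n l0 h]
  exact Finset.card_bijective (Equiv.subRight b) (Equiv.subRight b).bijective (by simp)

theorem col (n l0 : ℕ) (h : l0 ≤ n) (t : Fin n) :
    (univ.filter (fun b : Fin n => (t - b).val < l0)).card = l0 := by
  have : NeZero n := ⟨by have := t.isLt; omega⟩
  conv_rhs => rw [← card_lt n l0 h]
  exact Finset.card_bijective (Equiv.subLeft t) (Equiv.subLeft t).bijective (by simp)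

theorem b1 (q l : ℕ) (h2 : 2 ≤ l) (hl : l ≤ q + 2) : Pool.Agent.U645.VB.Bip q q l := by
  refine ⟨fun b t => decide ((t - b).val < l - 2), fun b => ⟨1, by norm_num, ?_⟩, fun t => ⟨1, by norm_num, ?_⟩⟩
  · have := row q (l - 2) (by omega) b
    simp only [decide_eq_true_eq]
    omega
  · have := col q (l - 2) (by omega) t
    simp only [decide_eq_true_eq]
    omega

/-- counting on `Fin (n + m)` -/
theorem card_add (n m : ℕ) (P : Fin (n + m) → Prop) [DecidablePred P] :
    (univ.filter P).card = (univ.filter (fun b : Fin n => P (Fin.castAdd m b))).card +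
      (univ.filter (fun b : Fin m => P (Fin.natAdd n b))).card := by
  rw [card_filter, card_filter, card_filter, Fin.sum_univ_add]

theorem b2 (q l : ℕ) (h2 : 2 ≤ l) (hl : l ≤ q + 2) : Pool.Agent.U645.VB.Bip (q + 2) q l := by
  refine ⟨fun b t => Fin.addCases (fun b' : Fin q => decide ((t - b').val < l - 2))
    (fun _ => decide (t.val < l - 2)) b, fun b => ⟨1, by norm_num, ?_⟩, fun t => ?_⟩
  · induction b using Fin.addCases with
    | left b =>
      have := row q (l - 2) (by omega) b
      simp only [Fin.addCases_left, decide_eq_true_eq]
      omega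
    | right b =>
      have := card_lt q (l - 2) (by omega)
      simp only [Fin.addCases_right, decide_eq_true_eq]
      omega
  · rw [card_add]
    have := col q (l - 2) (by omega) t
    simp only [Fin.addCases_left, Fin.addCases_right, decide_eq_true_eq]
    by_cases ht : t.val < l - 2
    · refine ⟨0, by norm_num, ?_⟩
      simp only [ht]
      simp
      omega
    · refine ⟨1, by norm_num, ?_⟩
      simp only [ht]
      simp
      omega

theorem b3 (n l : ℕ) (he : Even l) (h2 : 2 ≤ l) (hl : l ≤ n + 2) : Pool.Agent.U645.VB.Bip (n + 1) n l := by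
  obtain ⟨k, hk⟩ : ∃ k, l - 2 = 2 * k := by
    obtain ⟨k, hk⟩ := he
    exact ⟨k - 1, by omega⟩
  refine ⟨fun b t => Fin.addCases
    (fun b' : Fin n => decide ((t - b').val < l - 2 ∧ ¬ (t.val < l - 2 ∧ b'.val = 2 * (t.val / 2))))
    (fun _ : Fin 1 => decide (t.val < l - 2)) b, fun b => ?_, fun t => ?_⟩
  · induction b using Fin.addCases with
    | left b =>
      have hr := row n (l - 2) (by omega) b
      simp only [Fin.addCases_left, decide_eq_true_eq]
      set R := univ.filter (fun t : Fin n => t.val < l - 2 ∧ b.val = 2 * (t.val / 2)) with hR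
      have hset : univ.filter (fun t : Fin n => (t - b).val < l - 2 ∧ ¬ (t.val < l - 2 ∧ b.val = 2 * (t.val / 2))) =
          (univ.filter (fun t : Fin n => (t - b).val < l - 2)) \ R := by
        ext t
        simp [hR]
      have hsub : R ⊆ univ.filter (fun t : Fin n => (t - b).val < l - 2) := by
        intro t ht
        simp only [hR, mem_filter, mem_univ, true_and] at ht ⊢
        have hle : b ≤ t := by rw [Fin.le_def]; omega
        rw [Fin.sub_val_of_le hle]
        omega
      rw [hset, card_sdiff_of_subset hsub, hr]
      by_cases hb : b.val % 2 = 0 ∧ b.val < l - 2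
      · refine ⟨2, le_rfl, ?_⟩
        have hb1 : b.val + 1 < n := by omega
        have hR2 : R = {b, ⟨b.val + 1, hb1⟩} := by
          ext t
          simp only [hR, mem_filter, mem_univ, true_and, mem_insert, mem_singleton, Fin.ext_iff]
          omega
        have hc : R.card = 2 := by
          rw [hR2]
          apply card_pair
          intro h
          have := congrArg Fin.val h
          simp at this
        omega
      · refine ⟨1, by norm_num, ?_⟩
        have hR0 : R = ∅ := by
          ext t
          simp only [hR, mem_filter, mem_univ, true_and, notMem_empty, iff_false]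
          omega
        rw [hR0, card_empty]
        omega
    | right b =>
      refine ⟨1, by norm_num, ?_⟩
      have := card_lt n (l - 2) (by omega)
      simp only [Fin.addCases_right, decide_eq_true_eq]
      omega
  · refine ⟨1, by norm_num, ?_⟩
    rw [card_add]
    have hc := col n (l - 2) (by omega) t
    simp only [Fin.addCases_left, Fin.addCases_right, decide_eq_true_eq]
    by_cases ht : t.val < l - 2
    · have hb0 : 2 * (t.val / 2) < n := by have := t.isLt; omega
      have hset : univ.filter (fun b : Fin n => (t - b).val < l - 2 ∧ ¬ (t.val < l - 2 ∧ b.val = 2 * (t.val / 2))) =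
          (univ.filter (fun b : Fin n => (t - b).val < l - 2)).erase ⟨2 * (t.val / 2), hb0⟩ := by
        ext b
        simp only [mem_filter, mem_univ, true_and, mem_erase, ne_eq, Fin.ext_iff]
        tauto
      have hmem : (⟨2 * (t.val / 2), hb0⟩ : Fin n) ∈ univ.filter (fun b : Fin n => (t - b).val < l - 2) := by
        simp only [mem_filter, mem_univ, true_and]
        have hle : (⟨2 * (t.val / 2), hb0⟩ : Fin n) ≤ t := by
          rw [Fin.le_def]
          change 2 * (t.val / 2) ≤ t.val
          omega
        rw [Fin.sub_val_of_le hle]
        change t.val - 2 * (t.val / 2) < l - 2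
        omega
      rw [hset, card_erase_of_mem hmem, hc]
      simp only [ht]
      simp
      omega
    · simp only [ht]
      simp
      omega

theorem t_B : Pool.Agent.U645.VB.S_B := ⟨b1, b2, b3⟩

end Pool.Agent.U402.VB.B
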